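import Mathlib

namespace Pool.Agent.Results.MP_851083_pr.Wedge

/-- `tr s t` is the configuration at time `t - 1` of the flattening automaton started from `s` -/
def tr (s : ℤ × ℤ → Bool) : ℕ → ℤ × ℤ → Bool
  | 0 => s
  | t + 1 => fun p => (tr s t p && tr s t (p.1, p.2 - 1)) ||
      (tr s t (p.1 - 1, p.2) && tr s t (p.1 - 1, p.2 - 1))

def IsAttractor (s : ℤ × ℤ → Bool) : Prop :=
  ∀ s' : ℤ × ℤ → Bool, {p | s' p ≠ s p}.Finite → {x : ℕ × ℤ × ℤ | tr s' x.1 x.2 ≠ tr s x.1 x.2}.Finite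

lemma lo (s : ℤ × ℤ → Bool) (f : ℤ → ℤ) (h : ∀ p, f p.1 ≤ p.2 → s p = true) (t : ℕ) :
    ∀ p : ℤ × ℤ, ∀ k, p.1 - t ≤ k → k ≤ p.1 → f k + t ≤ p.2 → tr s t p = true := by
  induction t with
  | zero => intro p k h1 h2 h3; exact h p (by rw [show p.1 = k by omega]; omega)
  | succ t ih =>
    intro p k h1 h2 h3
    push_cast at h1 h3
    simp only [tr, Bool.or_eq_true, Bool.and_eq_true]
    by_cases hk : k = p.1
    · exact Or.inl ⟨ih _ k (by omega) h2 (by omega), ih _ k (by simp; omega) h2 (by simp; omega)⟩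
    · exact Or.inr ⟨ih _ k (by simp; omega) (by simp; omega) (by simp; omega),
        ih _ k (by simp; omega) (by simp; omega) (by simp; omega)⟩

lemma hi (s : ℤ × ℤ → Bool) (f : ℤ → ℤ) (h : ∀ p, s p = true → f p.1 ≤ p.2) (t : ℕ) :
    ∀ p : ℤ × ℤ, tr s t p = true → ∃ k, p.1 - t ≤ k ∧ k ≤ p.1 ∧ f k + t ≤ p.2 := by
  induction t with
  | zero => intro p hp; exact ⟨p.1, by omega, le_rfl, by simpa using h p hp⟩
  | succ t ih =>
    intro p hp
    simp only [tr, Bool.or_eq_true, Bool.and_eq_true] at hp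
    rcases hp with ⟨-, hp⟩ | ⟨-, hp⟩ <;> obtain ⟨k, h1, h2, h3⟩ := ih _ hp <;>
      exact ⟨k, by simp at *; omega, by simp at *; omega, by simp at *; omega⟩

lemma fin (s s' : ℤ × ℤ → Bool) (h : {p | s' p ≠ s p}.Finite) (t : ℕ) :
    {p | tr s' t p ≠ tr s t p}.Finite := by
  induction t with
  | zero => exact h
  | succ t ih =>
    refine (((ih.union (ih.image fun p => (p.1, p.2 + 1))).union
      (ih.image fun p => (p.1 + 1, p.2))).union (ih.image fun p => (p.1 + 1, p.2 + 1))).subset ?_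
    intro p hp
    by_contra hc
    simp only [Set.mem_union, Set.mem_image, Set.mem_ofPred, not_or, not_exists, not_and,
      not_not, not_imp_not] at hc
    obtain ⟨⟨⟨a, b⟩, c⟩, d⟩ := hc
    exact hp (by simp only [tr, a, b (p.1, p.2 - 1) (by simp), c (p.1 - 1, p.2) (by simp),
      d (p.1 - 1, p.2 - 1) (by simp)])

def w (p : ℤ × ℤ) : Bool := decide (-|p.1| ≤ p.2)

lemma late (s : ℤ × ℤ → Bool) (N : ℕ) (h : ∀ p : ℤ × ℤ, (N < |p.1| ∨ N < |p.2|) → s p = w p) (t : ℕ)
    (ht : 2 * N + 2 ≤ t) (p : ℤ × ℤ) :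
    tr s t p = true ↔ ∃ k, p.1 - t ≤ k ∧ k ≤ p.1 ∧ -|k| + t ≤ p.2 ∧ N < |k| := by
  constructor
  · intro hp
    obtain ⟨k, h1, h2, h3⟩ := hi s (fun k => -max |k| N) (fun q hq => by
      by_cases hc : N < |q.1| ∨ N < |q.2|
      · rw [h q hc] at hq; simp [w] at hq; omega
      · have := neg_abs_le q.2; omega) t p hp
    by_cases hc : |p.1| ≤ |p.1 - t|
    · exact ⟨p.1 - t, le_rfl, by omega, by simp only [abs] at *; omega, by simp only [abs] at *; omega⟩
    · exact ⟨p.1, by omega, le_rfl, by simp only [abs] at *; omega, by simp only [abs] at *; omega⟩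
  · rintro ⟨k, h1, h2, h3, h4⟩
    refine lo s (fun k => if N < |k| then -|k| else N + 1) (fun q hq => ?_) t p k h1 h2 (by simpa [h4] using h3)
    have := le_abs_self q.2
    have := abs_nonneg q.1
    split_ifs at hq with hc
    · rw [h q (Or.inl hc)]; simpa [w]
    · rw [h q (Or.inr (by omega))]; simp [w]; omega

theorem result : ∃ s : ℤ × ℤ → Bool, IsAttractor s ∧
    ∀ t, {p | tr s t p = true}.Infinite ∧ {p | tr s t p = false}.Infinite := by
  classical
  refine ⟨w, fun s h => ?_, fun t => ⟨?_, ?_⟩⟩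
  · obtain ⟨M, hM⟩ := (h.image fun p => |p.1| + |p.2|).bddAbove
    have hN : ∀ p : ℤ × ℤ, (M.toNat < |p.1| ∨ M.toNat < |p.2|) → s p = w p := fun p hp => by
      by_contra hc
      have : |p.1| + |p.2| ≤ M := hM ⟨p, hc, rfl⟩
      have := abs_nonneg p.1
      have := abs_nonneg p.2
      omega
    refine ((Set.finite_Iio (2 * M.toNat + 2)).biUnion fun t _ =>
      (fin w s h t).image (Prod.mk t)).subset fun x hx => ?_
    refine Set.mem_biUnion (x := x.1) (Set.mem_Iio.2 (not_le.1 fun ht => hx ?_)) ⟨x.2, hx, rfl⟩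
    rw [Bool.eq_iff_iff, late s _ hN _ ht, late w _ (fun _ _ => rfl) _ ht]
  · refine Set.infinite_of_injective_forall_mem (f := fun n : ℕ => ((0 : ℤ), (n + t : ℤ)))
      (fun a b h => by simpa using h) fun n => ?_
    exact lo w (fun k => -|k|) (fun p hp => by simpa [w]) t _ 0 (by simp) le_rfl (by simp)
  · refine Set.infinite_of_injective_forall_mem (f := fun n : ℕ => ((0 : ℤ), (-n - 1 : ℤ)))
      (fun a b h => by simpa using h) fun n => ?_
    by_contra hc
    obtain ⟨k, h1, h2, h3⟩ := hi w (fun k => -|k|) (fun p hp => by simpa [w] using hp) t _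
      (Bool.eq_true_of_not_eq_false hc)
    simp only [abs] at *
    omega

end Pool.Agent.Results.MP_851083_pr.Wedge
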